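import Pool.Agent.W209.KT.Stm

/-!
# KT-CA: the coarse count
-/

set_option autoImplicit false

namespace Pool.Agent.W357.KT

open Pool.Agent.W209.KT

theorem nrm_le (x : ℝ) (n : ℤ) : nrm x ≤ |x - n| := by
  unfold nrm
  exact round_le x n

theorem card_Icc_le (x y : ℝ) (h : x ≤ y) : ((Finset.Icc ⌈x⌉ ⌊y⌋).card : ℝ) ≤ y - x + 1 := by
  rw [Int.card_Icc]
  rcases le_or_gt 0 (⌊y⌋ + 1 - ⌈x⌉) with h0 | h0
  · have h1 : ((⌊y⌋ + 1 - ⌈x⌉).toNat : ℝ) = ((⌊y⌋ + 1 - ⌈x⌉ : ℤ) : ℝ) := by
      have := Int.toNat_of_nonneg h0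
      exact_mod_cast congrArg (fun z : ℤ => (z : ℝ)) this
    rw [h1]
    push_cast
    have h2 := Int.floor_le y
    have h3 := Int.le_ceil x
    linarith
  · rw [Int.toNat_of_nonpos h0.le]
    push_cast
    linarith

theorem res_count (p : ℕ) (hp : 0 < p) (s : ℤ) (hc : IsCoprime s (p : ℤ)) (ζ δ : ℝ)
    (hδ : 0 ≤ δ) :
    (((Finset.range p).filter (fun a : ℕ => nrm (ζ + (s : ℝ) * a / p) ≤ δ)).card : ℝ) ≤
      2 * δ * p + 1 := by
  have hp' : (0 : ℝ) < p := by exact_mod_cast hp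
  have h1 : ((Finset.range p).filter (fun a : ℕ => nrm (ζ + (s : ℝ) * a / p) ≤ δ)).card ≤
      (Finset.Icc ⌈-(p * ζ) - p * δ⌉ ⌊-(p * ζ) + p * δ⌋).card := by
    refine Finset.card_le_card_of_injOn
      (fun a : ℕ => s * a - p * round (ζ + (s : ℝ) * a / p)) ?_ ?_
    · intro a ha
      have ha' := (Finset.mem_filter.1 (Finset.mem_coe.1 ha)).2
      unfold nrm at ha'
      rw [abs_le] at ha'
      rw [Finset.mem_coe, Finset.mem_Icc]
      have e : (p : ℝ) * (ζ + (s : ℝ) * a / p) = p * ζ + s * a := by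
        field_simp
      constructor
      · rw [Int.ceil_le]
        push_cast
        have := mul_le_mul_of_nonneg_left ha'.1 hp'.le
        rw [mul_sub, e] at this
        linarith
      · rw [Int.le_floor]
        push_cast
        have := mul_le_mul_of_nonneg_left ha'.2 hp'.le
        rw [mul_sub, e] at this
        linarith
    · intro a ha b hb hab
      have ha' := Finset.mem_range.1 (Finset.mem_filter.1 (Finset.mem_coe.1 ha)).1
      have hb' := Finset.mem_range.1 (Finset.mem_filter.1 (Finset.mem_coe.1 hb)).1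
      simp only at hab
      have h2 : (p : ℤ) ∣ s * ((a : ℤ) - b) :=
        ⟨round (ζ + (s : ℝ) * a / p) - round (ζ + (s : ℝ) * b / p), by linear_combination hab⟩
      have h3 : (p : ℤ) ∣ (a : ℤ) - b := hc.symm.dvd_of_dvd_mul_left h2
      obtain ⟨c, hc'⟩ := h3
      have hc0 : c = 0 := by
        by_contra hne
        rcases lt_or_gt_of_ne hne with h | h
        · have : (p : ℤ) * c ≤ -(p : ℤ) := by nlinarith
          omega
        · have : (p : ℤ) ≤ (p : ℤ) * c := by nlinarith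
          omega
      rw [hc0] at hc'
      omega
  calc (((Finset.range p).filter (fun a : ℕ => nrm (ζ + (s : ℝ) * a / p) ≤ δ)).card : ℝ) ≤
        ((Finset.Icc ⌈-(p * ζ) - p * δ⌉ ⌊-(p * ζ) + p * δ⌋).card : ℝ) := by exact_mod_cast h1
    _ ≤ (-(p * ζ) + p * δ) - (-(p * ζ) - p * δ) + 1 := card_Icc_le _ _ (by
        have := mul_nonneg hp'.le hδ
        linarith)
    _ = 2 * δ * p + 1 := by ring

theorem D_big (k : ℕ) : 2 ^ 1000 ≤ D k := by
  unfold D
  apply Nat.pow_le_pow_right (by norm_num)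
  have : 1 ≤ 36 ^ k := Nat.one_le_pow _ _ (by norm_num)
  omega

theorem D_big' (k : ℕ) : (2200 : ℝ) ≤ D k := by
  have h0 : (2 : ℕ) ^ 12 ≤ 2 ^ 1000 := Nat.pow_le_pow_right (by norm_num) (by norm_num)
  have h : 2200 ≤ D k := le_trans (le_trans (by norm_num) h0) (D_big k)
  exact_mod_cast h

theorem E_le (k : ℕ) : E k ≤ D k := by
  unfold E
  exact Nat.pow_log_le_self 3 (by have := D_big k; have : 0 < 2 ^ 1000 := by positivity
                                  omega)

theorem D_lt (k : ℕ) : D k < 3 * E k := by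
  unfold E
  have := Nat.lt_pow_succ_log_self (b := 3) (by norm_num) (D k)
  rw [pow_succ] at this
  omega

theorem cop (k : ℕ) : Nat.Coprime (D k) (E k) := by
  unfold D E
  exact Nat.Coprime.pow _ _ (by norm_num)

theorem lev_le (k : ℕ) : 2 ^ (12 * lev k) ≤ D k := by
  unfold D
  apply Nat.pow_le_pow_right (by norm_num)
  have h1 : lev k ≤ k := by
    unfold lev
    have := Nat.log_lt_self 256 (x := k + 1) (by omega)
    omega
  have h2 : k < 36 ^ k := Nat.lt_pow_self (by norm_num)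
  omega

theorem theta_le (A : Fin 2 → Fin 11 → ℝ) (s : ℕ → Fin 2 → Fin 11 → ℤ) (hG : Good A s) (k : ℕ)
    (j : Fin 2) : ((D k : ℝ) * E k) * |A j 10 - s k j 10 / p k j| ≤ 1 / (100 * D k) := by
  have hd := D_big' k
  set d : ℝ := (D k : ℝ) with hdd
  have hd0 : 0 < d := by linarith
  have hE1 : (E k : ℝ) ≤ d := by rw [hdd]; exact_mod_cast E_le k
  have hE2 : d < 3 * E k := by rw [hdd]; exact_mod_cast D_lt k
  have hE0 : (0 : ℝ) < E k := by linarith
  have hT : (2 : ℝ) ^ (12 * lev k) ≤ d := by rw [hdd]; exact_mod_cast lev_le k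
  have hT0 : (0 : ℝ) < 2 ^ (12 * lev k) := by positivity
  have hF : d ^ 11 ≤ F k := by
    unfold F
    rw [le_div_iff₀ hT0, ← hdd]
    calc d ^ 11 * 2 ^ (12 * lev k) ≤ d ^ 11 * d := by gcongr
      _ = d ^ 12 := by ring
  have hF0 : 0 < F k := lt_of_lt_of_le (by positivity) hF
  have hv0 : 0 ≤ v j := by unfold v; split_ifs <;> positivity
  have hv : v j ≤ 2 := by
    unfold v
    split_ifs
    · norm_num
    · rw [Real.sqrt_le_left (by norm_num)]; norm_num
  have hg : g (u k) 10 = 1 := by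
    unfold g
    simp
  have hcl := hG.close k j 10
  rw [hg, mul_one, ← hdd] at hcl
  have hp0 : (0 : ℝ) < p k j := by
    unfold p
    split_ifs
    · exact hd0
    · exact hE0
  have h1 : |A j 10 - s k j 10 / p k j| ≤ v j / (F k * p k j) + 20 / d ^ 36 := by
    have e1 : A j 10 - s k j 10 / p k j =
        (A j 10 - s k j 10 / p k j - v j / (F k * p k j)) + v j / (F k * p k j) := by ring
    rw [e1]
    refine (abs_add_le _ _).trans ?_
    have e2 : |v j / (F k * p k j)| = v j / (F k * p k j) := abs_of_nonneg (by positivity)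
    rw [e2]
    linarith
  have hPp : d * E k ≤ d * p k j := by
    unfold p
    split_ifs
    · exact mul_le_mul_of_nonneg_left hE1 hd0.le
    · exact le_rfl
  have h2 : (d * E k) * (v j / (F k * p k j)) ≤ 2 / d ^ 10 := by
    rw [mul_div_assoc', div_le_div_iff₀ (by positivity) (by positivity)]
    calc d * E k * v j * d ^ 10 ≤ d * p k j * 2 * d ^ 10 := by gcongr
      _ = 2 * (d ^ 11 * p k j) := by ring
      _ ≤ 2 * (F k * p k j) := by gcongr
  have h3 : (d * E k) * (20 / d ^ 36) ≤ 20 / d ^ 10 := by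
    rw [mul_div_assoc', div_le_div_iff₀ (by positivity) (by positivity)]
    calc d * E k * 20 * d ^ 10 ≤ d * d * 20 * d ^ 10 := by gcongr
      _ = 20 * d ^ 12 := by ring
      _ ≤ 20 * d ^ 36 := by
          have : d ^ 12 ≤ d ^ 36 := pow_le_pow_right₀ (by linarith) (by norm_num)
          linarith
  calc d * E k * |A j 10 - s k j 10 / p k j| ≤
        d * E k * (v j / (F k * p k j) + 20 / d ^ 36) := by gcongr
    _ ≤ 2 / d ^ 10 + 20 / d ^ 10 := by rw [mul_add]; linarith
    _ = 22 / d ^ 10 := by ring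
    _ ≤ 1 / (100 * d) := by
        rw [div_le_div_iff₀ (by positivity) (by positivity)]
        have h9 : 2200 ≤ d ^ 9 := by
          calc (2200 : ℝ) ≤ d := hd
            _ = d ^ 1 := (pow_one d).symm
            _ ≤ d ^ 9 := pow_le_pow_right₀ (by linarith) (by norm_num)
        have : d ^ 10 = d ^ 9 * d := by ring
        rw [this]
        nlinarith

/-- one block -/
theorem block (A : Fin 2 → Fin 11 → ℝ) (s : ℕ → Fin 2 → Fin 11 → ℤ) (hG : Good A s) (k : ℕ)
    (ψ : ℝ) (hψ : 1 / (100 * D k) ≤ ψ) (S : Finset ℤ) (hS : ∀ y ∈ S, ∀ j, nrm (A j 10 * y) ≤ ψ)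
    (b : ℤ) : (((S.filter (fun y => y / ((D k * E k : ℕ) : ℤ) = b)).card : ℕ) : ℝ) ≤
      (4 * ψ * D k + 1) * (4 * ψ * E k + 1) := by
  classical
  have hd := D_big' k
  have hD0 : 0 < D k := by
    have : (0 : ℝ) < D k := by linarith
    exact_mod_cast this
  have hE0 : 0 < E k := by
    have := D_lt k
    omega
  have hψ0 : 0 ≤ ψ := le_trans (by positivity) hψ
  set P : ℤ := ((D k * E k : ℕ) : ℤ) with hP
  have hP0 : 0 < P := by rw [hP]; exact_mod_cast Nat.mul_pos hD0 hE0
  have hPD : (D k : ℤ) ∣ P := by rw [hP]; push_cast; exact Dvd.intro _ rfl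
  have hPE : (E k : ℤ) ∣ P := by rw [hP]; push_cast; exact Dvd.intro_left _ rfl
  have hPr : (P : ℝ) = (D k : ℝ) * E k := by rw [hP]; push_cast; ring
  -- the residues
  have key : ∀ y ∈ S, y / P = b → ∀ j : Fin 2, ∀ q : ℕ, q = p k j → 0 < q → (q : ℤ) ∣ P →
      (y % (q : ℤ)).toNat ∈ (Finset.range q).filter
        (fun a : ℕ => nrm ((A j 10 * (P * b)) + (s k j 10 : ℝ) * a / q) ≤ 2 * ψ) := by
    intro y hy hyb j q hq hq0 hqP
    have hq0' : (0 : ℤ) < q := by exact_mod_cast hq0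
    have hm1 := Int.emod_nonneg y hq0'.ne'
    have hm2 := Int.emod_lt_of_pos y hq0'
    rw [Finset.mem_filter, Finset.mem_range]
    refine ⟨by omega, ?_⟩
    obtain ⟨c, hc⟩ := hqP
    have ha : (((y % (q : ℤ)).toNat : ℕ) : ℝ) = ((y % (q : ℤ) : ℤ) : ℝ) := by
      have := Int.toNat_of_nonneg hm1
      exact_mod_cast congrArg (fun z : ℤ => (z : ℝ)) this
    rw [ha]
    have hr1 := Int.emod_nonneg y hP0.ne'
    have hr2 := Int.emod_lt_of_pos y hP0
    have hy1 : (y : ℝ) = P * b + ((y % P : ℤ) : ℝ) := by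
      have := Int.mul_ediv_add_emod y P
      rw [hyb] at this
      exact_mod_cast this.symm
    have hy2 : (y : ℝ) = q * ((y / (q : ℤ) : ℤ) : ℝ) + ((y % (q : ℤ) : ℤ) : ℝ) := by
      have := Int.mul_ediv_add_emod y (q : ℤ)
      exact_mod_cast this.symm
    have hPc : (P : ℝ) = q * c := by exact_mod_cast congrArg (fun z : ℤ => (z : ℝ)) hc
    have hq0r : (q : ℝ) ≠ 0 := by exact_mod_cast hq0.ne'
    set r : ℝ := ((y % P : ℤ) : ℝ) with hr
    have hr0 : 0 ≤ r := by rw [hr]; exact_mod_cast hr1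
    have hrP : r ≤ P := by rw [hr]; exact_mod_cast hr2.le
    have hth := theta_le A s hG k j
    rw [← hPr, ← hq] at hth
    have hthr : |(A j 10 - s k j 10 / q) * r| ≤ ψ := by
      rw [abs_mul, abs_of_nonneg hr0]
      calc |A j 10 - s k j 10 / q| * r ≤ |A j 10 - s k j 10 / q| * P := by gcongr
        _ = P * |A j 10 - s k j 10 / q| := by ring
        _ ≤ 1 / (100 * D k) := hth
        _ ≤ ψ := hψ
    have hy3 := hS y hy j
    unfold nrm at hy3
    refine (nrm_le _ (round (A j 10 * y) - (s k j 10 * (y / (q : ℤ)) - s k j 10 * c * b))).trans ?_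
    have e1 : A j 10 * (P * b) + (s k j 10 : ℝ) * ((y % (q : ℤ) : ℤ) : ℝ) / q -
        ((round (A j 10 * y) - (s k j 10 * (y / (q : ℤ)) - s k j 10 * c * b) : ℤ) : ℝ) =
        (A j 10 * y - round (A j 10 * y)) - (A j 10 - s k j 10 / q) * r := by
      push_cast
      have e2 : ((y % (q : ℤ) : ℤ) : ℝ) = y - q * ((y / (q : ℤ) : ℤ) : ℝ) := by linarith
      have e3 : r = y - q * c * b := by rw [← hPc]; linarith
      rw [e2, e3, hPc]
      field_simp
      ring
    rw [e1]
    calc |(A j 10 * y - round (A j 10 * y)) - (A j 10 - s k j 10 / q) * r| ≤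
          |A j 10 * y - round (A j 10 * y)| + |(A j 10 - s k j 10 / q) * r| := abs_sub _ _
      _ ≤ ψ + ψ := add_le_add hy3 hthr
      _ = 2 * ψ := by ring
  set B0 := (Finset.range (D k)).filter
    (fun a : ℕ => nrm ((A 0 10 * (P * b)) + (s k 0 10 : ℝ) * a / (D k : ℕ)) ≤ 2 * ψ) with hB0
  set B1 := (Finset.range (E k)).filter
    (fun a : ℕ => nrm ((A 1 10 * (P * b)) + (s k 1 10 : ℝ) * a / (E k : ℕ)) ≤ 2 * ψ) with hB1
  have hp0 : p k 0 = D k := by simp [p]
  have hp1 : p k 1 = E k := by simp [p]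
  have c0 : (B0.card : ℝ) ≤ 4 * ψ * D k + 1 := by
    have h := res_count (D k) hD0 (s k 0 10) (by rw [← hp0]; exact hG.copr k 0)
      (A 0 10 * (P * b)) (2 * ψ) (by linarith)
    refine h.trans (le_of_eq (by ring))
  have c1 : (B1.card : ℝ) ≤ 4 * ψ * E k + 1 := by
    have h := res_count (E k) hE0 (s k 1 10) (by rw [← hp1]; exact hG.copr k 1)
      (A 1 10 * (P * b)) (2 * ψ) (by linarith)
    refine h.trans (le_of_eq (by ring))
  have hcard : (S.filter (fun y => y / P = b)).card ≤ (B0 ×ˢ B1).card := by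
    refine Finset.card_le_card_of_injOn
      (fun y : ℤ => ((y % (D k : ℤ)).toNat, (y % (E k : ℤ)).toNat)) ?_ ?_
    · intro y hy
      rw [Finset.mem_coe, Finset.mem_filter] at hy
      rw [Finset.mem_coe, Finset.mem_product]
      exact ⟨key y hy.1 hy.2 0 (D k) hp0.symm hD0 hPD, key y hy.1 hy.2 1 (E k) hp1.symm hE0 hPE⟩
    · intro y hy z hz hyz
      rw [Finset.mem_coe, Finset.mem_filter] at hy hz
      simp only [Prod.mk.injEq] at hyz
      have hD0' : (0 : ℤ) < (D k : ℤ) := by exact_mod_cast hD0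
      have hE0' : (0 : ℤ) < (E k : ℤ) := by exact_mod_cast hE0
      have f1 := Int.emod_nonneg y hD0'.ne'
      have f2 := Int.emod_nonneg z hD0'.ne'
      have f3 := Int.emod_nonneg y hE0'.ne'
      have f4 := Int.emod_nonneg z hE0'.ne'
      have g1 : y % (D k : ℤ) = z % (D k : ℤ) := by omega
      have g2 : y % (E k : ℤ) = z % (E k : ℤ) := by omega
      have d1 : (D k : ℤ) ∣ y - z := Int.ModEq.dvd (Int.ModEq.symm g1)
      have d2 : (E k : ℤ) ∣ y - z := Int.ModEq.dvd (Int.ModEq.symm g2)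
      have hco : IsCoprime (D k : ℤ) (E k : ℤ) := Nat.isCoprime_iff_coprime.2 (cop k)
      have d3 : P ∣ y - z := by
        rw [hP]; push_cast
        exact hco.mul_dvd d1 d2
      obtain ⟨c, hc⟩ := d3
      have y1 := Int.mul_ediv_add_emod y P
      have z1 := Int.mul_ediv_add_emod z P
      rw [hy.2] at y1
      rw [hz.2] at z1
      have y2 := Int.emod_nonneg y hP0.ne'
      have y3 := Int.emod_lt_of_pos y hP0
      have z2 := Int.emod_nonneg z hP0.ne'
      have z3 := Int.emod_lt_of_pos z hP0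
      have hc0 : c = 0 := by
        by_contra hne
        rcases lt_or_gt_of_ne hne with h | h
        · have : P * c ≤ -P := by nlinarith
          omega
        · have : P ≤ P * c := by nlinarith
          omega
      rw [hc0] at hc
      omega
  rw [Finset.card_product] at hcard
  calc (((S.filter (fun y => y / P = b)).card : ℕ) : ℝ) ≤ ((B0.card * B1.card : ℕ) : ℝ) := by
        exact_mod_cast hcard
    _ = (B0.card : ℝ) * B1.card := by push_cast; ring
    _ ≤ (4 * ψ * D k + 1) * (4 * ψ * E k + 1) :=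
        mul_le_mul c0 c1 (by positivity) (le_trans (by positivity) c0)

/-- **KT-CA** -/
theorem CA (_h : S_cov) : S_CA := by
  classical
  refine ⟨126464, by norm_num, ?_⟩
  intro A s hG k L ψ hψ hL
  have hd := D_big' k
  have hd0 : (0 : ℝ) < D k := by linarith
  have hD0 : 0 < D k := by exact_mod_cast hd0
  have hE0 : 0 < E k := by
    have := D_lt k
    omega
  have hψ1 : 1 / (100 * (D k : ℝ)) ≤ ψ := by
    rw [div_le_iff₀ (by positivity)]
    linarith
  have hψ0 : 0 ≤ ψ := le_trans (by positivity) hψ1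
  set P : ℤ := ((D k * E k : ℕ) : ℤ) with hP
  have hP0 : 0 < P := by rw [hP]; exact_mod_cast Nat.mul_pos hD0 hE0
  have hPL : P ≤ L := by
    rw [hP]
    have : D k * E k ≤ L := by
      calc D k * E k ≤ D k * D k := Nat.mul_le_mul_left _ (E_le k)
        _ = D k ^ 2 := by ring
        _ ≤ L := hL
    exact_mod_cast this
  set S : Finset ℤ := (Finset.Icc (-(L : ℤ)) L).filter (fun y => ∀ j, nrm (A j 10 * y) ≤ ψ)
    with hS
  have hcnt : cnt (fun j => A j 10) L ψ = S.card := by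
    unfold cnt
    rw [← Set.ncard_coe_finset]
    congr 1
    ext y
    simp [hS, abs_le]
  rw [hcnt]
  set n : ℕ := ⌊(4 * ψ * D k + 1) * (4 * ψ * E k + 1)⌋₊ with hn
  have hmain : S.card ≤ n * (Finset.Icc (-((L : ℤ) / P) - 1) ((L : ℤ) / P)).card := by
    refine Finset.card_le_mul_card_image_of_maps_to (f := fun y : ℤ => y / P) ?_ n ?_
    · intro y hy
      rw [hS, Finset.mem_filter, Finset.mem_Icc] at hy
      rw [Finset.mem_Icc]
      constructor
      · rw [Int.le_ediv_iff_mul_le hP0]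
        have h1 := Int.mul_ediv_add_emod (L : ℤ) P
        have h2 := Int.emod_lt_of_pos (L : ℤ) hP0
        have h3 : (-((L : ℤ) / P) - 1) * P = -(P * ((L : ℤ) / P)) - P := by ring
        rw [h3]
        linarith [hy.1.1]
      · exact Int.ediv_le_ediv hP0 hy.1.2
    · intro b _
      rw [hn]
      apply Nat.le_floor
      exact block A s hG k ψ hψ1 S (fun y hy => (Finset.mem_filter.1 hy).2) b
  have hnn : (n : ℝ) ≤ (4 * ψ * D k + 1) * (4 * ψ * E k + 1) := by
    rw [hn]
    exact Nat.floor_le (by positivity)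
  have hLP0 : 0 ≤ (L : ℤ) / P := Int.ediv_nonneg (by positivity) hP0.le
  have hcardI : ((Finset.Icc (-((L : ℤ) / P) - 1) ((L : ℤ) / P)).card : ℝ) =
      2 * (((L : ℤ) / P : ℤ) : ℝ) + 2 := by
    rw [Int.card_Icc]
    have h0 : 0 ≤ (L : ℤ) / P + 1 - (-((L : ℤ) / P) - 1) := by omega
    have h1 := Int.toNat_of_nonneg h0
    have h2 : (((((L : ℤ) / P + 1 - (-((L : ℤ) / P) - 1)).toNat : ℕ) : ℤ) : ℝ) =
        (((L : ℤ) / P + 1 - (-((L : ℤ) / P) - 1) : ℤ) : ℝ) := by rw [h1]
    have h3 : (((L : ℤ) / P + 1 - (-((L : ℤ) / P) - 1)).toNat : ℝ) =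
        (((L : ℤ) / P + 1 - (-((L : ℤ) / P) - 1) : ℤ) : ℝ) := by exact_mod_cast h2
    rw [h3]
    push_cast
    ring
  have hPr : (P : ℝ) = (D k : ℝ) * E k := by rw [hP]; push_cast; ring
  have hPr0 : (0 : ℝ) < P := by exact_mod_cast hP0
  have hq : (((L : ℤ) / P : ℤ) : ℝ) * P ≤ L := by
    have h1 := Int.mul_ediv_add_emod (L : ℤ) P
    have h2 := Int.emod_nonneg (L : ℤ) hP0.ne'
    have h3 : ((L : ℤ) / P) * P ≤ (L : ℤ) := by
      rw [mul_comm]; linarith
    exact_mod_cast h3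
  have hPL' : (P : ℝ) ≤ L := by exact_mod_cast hPL
  have hE2 : (D k : ℝ) < 3 * E k := by exact_mod_cast D_lt k
  have a1 : 4 * ψ * D k + 1 ≤ 104 * ψ * D k := by linarith
  have a2 : 4 * ψ * E k + 1 ≤ 304 * ψ * E k := by
    have : ψ * 100 * D k ≤ ψ * 100 * (3 * E k) :=
      mul_le_mul_of_nonneg_left hE2.le (by positivity)
    linarith
  have hLr : (0 : ℝ) ≤ L := by positivity
  have hI0 : (0 : ℝ) ≤ 2 * (((L : ℤ) / P : ℤ) : ℝ) + 2 := by
    have : (0 : ℝ) ≤ (((L : ℤ) / P : ℤ) : ℝ) := by exact_mod_cast hLP0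
    linarith
  calc (S.card : ℝ) ≤ ((n * (Finset.Icc (-((L : ℤ) / P) - 1) ((L : ℤ) / P)).card : ℕ) : ℝ) := by
        exact_mod_cast hmain
    _ = n * (2 * (((L : ℤ) / P : ℤ) : ℝ) + 2) := by rw [Nat.cast_mul, hcardI]
    _ ≤ ((104 * ψ * D k) * (304 * ψ * E k)) * (2 * (((L : ℤ) / P : ℤ) : ℝ) + 2) := by
        apply mul_le_mul_of_nonneg_right _ hI0
        refine hnn.trans ?_
        apply mul_le_mul a1 a2 (by positivity) (by positivity)
    _ = 31616 * ψ ^ 2 * (P * (2 * (((L : ℤ) / P : ℤ) : ℝ) + 2)) := by rw [hPr]; ring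
    _ ≤ 31616 * ψ ^ 2 * (4 * L) := by
        apply mul_le_mul_of_nonneg_left _ (by positivity)
        have : (P : ℝ) * (2 * (((L : ℤ) / P : ℤ) : ℝ) + 2) =
            2 * ((((L : ℤ) / P : ℤ) : ℝ) * P) + 2 * P := by ring
        rw [this]
        linarith
    _ = 126464 * L * ψ ^ 2 := by ring

end Pool.Agent.W357.KT
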